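import Pool.Agent.Results.MP_a7f73e_co.UnitUnion
import Pool.Agent.W629.SU.Fam

/-!
# Disjoint unions of many unit graphs

The starting file `UnitUnion` gives two graphs of sum number one whose disjoint union has sum
number two.  Here: the largest sum number of a disjoint union of `k` graphs of sum number one is
exactly `k`, for every `k`; there are even infinite sequences of graphs of sum number one any
`j ≤ k` members of which have a disjoint union of sum number exactly `j`.  Consequently the general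
bound `σ(G₁ + G₂) ≤ σ(G₁) + σ(G₂) - 1` proposed by Kratochvil, Miller and Nguyen fails for every
pair of values of `σ(G₁)` and `σ(G₂)`.
-/

set_option autoImplicit false

namespace Pool.Agent.Results.MP_a7f73e_co.ManyUnitGraphs

open Pool.Agent.Results.MP_a7f73e_co.UnitUnion Pool.Agent.W629.SU H43R3.SumG

/-- the disjoint union of the graphs `G i` -/
def unionGraph {ι : Type} {V : ι → Type} (G : ∀ i, SimpleGraph (V i)) :
    SimpleGraph (Σ i, V i) where
  Adj p q := ∃ (i : ι) (u v : V i), p = ⟨i, u⟩ ∧ q = ⟨i, v⟩ ∧ (G i).Adj u v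
  symm := ⟨fun _ _ ⟨i, u, v, h1, h2, h3⟩ => ⟨i, v, u, h2, h1, h3.symm⟩⟩
  loopless := ⟨fun _ ⟨_, _, _, h1, h2, h3⟩ =>
    h3.ne (eq_of_heq (Sigma.mk.inj (h1.symm.trans h2)).2)⟩

theorem sum_iffF {ι : Type} {V : ι → Type} (G : ∀ i, SimpleGraph (V i)) (r : ℕ) :
    IsSumGraph (unionGraph G ⊕g (⊥ : SimpleGraph (Fin r))) ↔ IsLabF G r := by
  have key : ∀ x y : (Σ i, V i) ⊕ Fin r,
      (unionGraph G ⊕g (⊥ : SimpleGraph (Fin r))).Adj x y ↔
      ∃ i u v, x = Sum.inl ⟨i, u⟩ ∧ y = Sum.inl ⟨i, v⟩ ∧ (G i).Adj u v := by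
    rintro (u | i) (v | j)
    · rw [SimpleGraph.sum_adj_inl]
      constructor
      · rintro ⟨i, a, b, rfl, rfl, h⟩
        exact ⟨i, a, b, rfl, rfl, h⟩
      · rintro ⟨i, a, b, h1, h2, h⟩
        exact ⟨i, a, b, Sum.inl.inj h1, Sum.inl.inj h2, h⟩
    · simp
    · simp
    · simp
  unfold IsSumGraph IsLabF
  simp only [key]

theorem isSum_iso {V W : Type} {G : SimpleGraph V} {H : SimpleGraph W} (e : G ≃g H)
    (h : IsSumGraph G) : IsSumGraph H := by
  obtain ⟨f, finj, fpos, hf⟩ := h
  refine ⟨fun w => f (e.symm w), finj.comp e.symm.injective, fun w => fpos _, ?_⟩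
  intro u v huv
  rw [← e.symm.map_adj_iff, hf _ _ (e.symm.injective.ne huv)]
  constructor
  · rintro ⟨w, hw⟩
    refine ⟨e w, ?_⟩
    show f (e.symm u) + f (e.symm v) = f (e.symm (e w))
    rw [hw, e.symm_apply_apply]
  · rintro ⟨w, hw⟩
    exact ⟨e.symm w, hw⟩

theorem hasSum_iso {V W : Type} {G : SimpleGraph V} {H : SimpleGraph W} (e : G ≃g H) {k : ℕ}
    (h : HasSumNumber G k) : HasSumNumber H k := by
  refine ⟨isSum_iso (SimpleGraph.Iso.sumCongr e (SimpleGraph.Iso.refl)) h.1, ?_⟩
  intro r hr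
  exact h.2 (isSum_iso (SimpleGraph.Iso.sumCongr e.symm (SimpleGraph.Iso.refl)) hr)

theorem tt_ten (K n : ℕ) : 10 ≤ tt K n := by
  have := tt_big K n
  omega

theorem GG_one (K n : ℕ) : HasSumNumber (GG (tt K n)) 1 := by
  have h1 := tt_ten K n
  have : Nonempty (VV (tt K n)) := ⟨mkv h1 (s := 2) (by unfold inS; omega)⟩
  refine ⟨(sum_iff _ _).2 (lab_one h1), ?_⟩
  intro r hr
  rcases Nat.eq_zero_or_pos r with h0 | h0
  · subst h0
    exact absurd ((sum_iff _ _).1 hr) (not_lab_zero _ (GG_nb h1))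
  · exact h0

theorem union_hasSum {ι : Type} [Fintype ι] [LinearOrder ι] {K : ℕ} (f : ι → ℕ)
    (hf : StrictMono f) (hK : Fintype.card ι ≤ K) :
    HasSumNumber (unionGraph (fun i => GG (tt K (f i)))) (Fintype.card ι) := by
  refine ⟨(sum_iffF _ _).2 (lab_of_lab_one fun i => lab_one (tt_ten _ _)), ?_⟩
  intro r hr
  exact card_le_of_lab f hf hK ((sum_iffF _ _).1 hr)

theorem card_VV_le (τ : ℕ) : Nat.card (VV τ) ≤ 16 * τ := by
  have h := Nat.card_le_card_of_injective (fun x : VV τ => x.1) Subtype.val_injective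
  rwa [Nat.card_eq_fintype_card (α := Fin (16 * τ)), Fintype.card_fin] at h

theorem le_card_VV (τ : ℕ) (hτ : 10 ≤ τ) : 8 * τ - 1 ≤ Nat.card (VV τ) := by
  have h := Nat.card_le_card_of_injective
    (fun i : Fin (8 * τ - 1) => (mkv hτ (s := 2 * (i.1 + 1)) (by unfold inS; omega) : VV τ)) (by
      intro i j hij
      have h1 : 2 * (i.1 + 1) = 2 * (j.1 + 1) := congrArg (fun a : VV τ => a.1.1) hij
      exact Fin.ext (by omega))
  rwa [Nat.card_eq_fintype_card (α := Fin (8 * τ - 1)), Fintype.card_fin] at h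

/-- the map behind the isomorphism `split` -/
def splitMap (K a b : ℕ) : (Σ i : Fin a, VV (tt K i)) ⊕ (Σ j : Fin b, VV (tt K (a + j))) →
    (Σ i : Fin (a + b), VV (tt K i))
  | Sum.inl ⟨i, u⟩ => ⟨Fin.castAdd b i, u⟩
  | Sum.inr ⟨j, u⟩ => ⟨Fin.natAdd a j, u⟩

theorem splitMap_bij (K a b : ℕ) : Function.Bijective (splitMap K a b) := by
  constructor
  · rintro (⟨i, u⟩ | ⟨j, u⟩) (⟨i', u'⟩ | ⟨j', u'⟩) h
    · obtain ⟨h1, h2⟩ := Sigma.mk.inj h
      have h3 : i = i' := Fin.castAdd_injective a b h1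
      subst h3
      rw [eq_of_heq h2]
    · exfalso
      obtain ⟨h1, h2⟩ := Sigma.mk.inj h
      have h3 : i.1 = a + j'.1 := congrArg Fin.val h1
      have := i.2
      omega
    · exfalso
      obtain ⟨h1, h2⟩ := Sigma.mk.inj h
      have h3 : a + j.1 = i'.1 := congrArg Fin.val h1
      have := i'.2
      omega
    · obtain ⟨h1, h2⟩ := Sigma.mk.inj h
      have h3 : j = j' := Fin.natAdd_injective b a h1
      subst h3
      rw [eq_of_heq h2]
  · rintro ⟨i, u⟩
    induction i using Fin.addCases with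
    | left i => exact ⟨Sum.inl ⟨i, u⟩, rfl⟩
    | right j => exact ⟨Sum.inr ⟨j, u⟩, rfl⟩

theorem splitMap_adj (K a b : ℕ)
    (x y : (Σ i : Fin a, VV (tt K i)) ⊕ (Σ j : Fin b, VV (tt K (a + j)))) :
    (unionGraph (fun i : Fin (a + b) => GG (tt K i))).Adj (splitMap K a b x) (splitMap K a b y) ↔
      (unionGraph (fun i : Fin a => GG (tt K i)) ⊕g
        unionGraph (fun j : Fin b => GG (tt K (a + j)))).Adj x y := by
  rcases x with ⟨i, u⟩ | ⟨j, u⟩ <;> rcases y with ⟨i', u'⟩ | ⟨j', u'⟩
  · rw [SimpleGraph.sum_adj_inl]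
    constructor
    · rintro ⟨l, p, q, h1, h2, h3⟩
      obtain ⟨rfl, h5⟩ := Sigma.mk.inj h1
      obtain ⟨h6, h7⟩ := Sigma.mk.inj h2
      have h8 : i' = i := Fin.castAdd_injective a b h6
      subst h8
      have h9 := eq_of_heq h5
      have h10 := eq_of_heq h7
      subst h9; subst h10
      exact ⟨_, _, _, rfl, rfl, h3⟩
    · rintro ⟨l, p, q, h1, h2, h3⟩
      rw [h1, h2]
      exact ⟨_, _, _, rfl, rfl, h3⟩
  · constructor
    · rintro ⟨l, p, q, h1, h2, h3⟩
      exfalso
      have h4 := (Sigma.mk.inj h1).1.trans (Sigma.mk.inj h2).1.symm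
      have h5 : i.1 = a + j'.1 := congrArg Fin.val h4
      have := i.2
      omega
    · intro h
      simp at h
  · constructor
    · rintro ⟨l, p, q, h1, h2, h3⟩
      exfalso
      have h4 := (Sigma.mk.inj h1).1.trans (Sigma.mk.inj h2).1.symm
      have h5 : a + j.1 = i'.1 := congrArg Fin.val h4
      have := i'.2
      omega
    · intro h
      simp at h
  · rw [SimpleGraph.sum_adj_inr]
    constructor
    · rintro ⟨l, p, q, h1, h2, h3⟩
      obtain ⟨rfl, h5⟩ := Sigma.mk.inj h1
      obtain ⟨h6, h7⟩ := Sigma.mk.inj h2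
      have h8 : j' = j := Fin.natAdd_injective b a h6
      subst h8
      have h9 := eq_of_heq h5
      have h10 := eq_of_heq h7
      subst h9; subst h10
      exact ⟨_, _, _, rfl, rfl, h3⟩
    · rintro ⟨l, p, q, h1, h2, h3⟩
      rw [h1, h2]
      exact ⟨_, _, _, rfl, rfl, h3⟩

/-- The union of the first `a + b` graphs is the disjoint sum of the union of the first `a` and the
union of the next `b`. -/
noncomputable def split (K a b : ℕ) :
    (unionGraph (fun i : Fin a => GG (tt K i)) ⊕g
      unionGraph (fun j : Fin b => GG (tt K (a + j)))) ≃g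
    unionGraph (fun i : Fin (a + b) => GG (tt K i)) where
  toEquiv := Equiv.ofBijective _ (splitMap_bij K a b)
  map_rel_iff' := splitMap_adj K a b _ _

/-- **Disjoint unions of unit graphs.** All graphs are finite.

1. For every `k` the largest sum number of a disjoint union of `k` graphs of sum number one is
   exactly `k`.
2. For every `k` there is an infinite sequence of graphs of sum number one, without isolated
   vertices and of strictly increasing orders, any `j ≤ k` members of which have a disjoint union of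
   sum number exactly `j`.
3. For all `a, b ≥ 1` there are graphs of sum numbers `a` and `b` whose disjoint union has sum
   number exactly `a + b`. -/
theorem result :
    (∀ k : ℕ, IsGreatest {r : ℕ | ∃ (V : Fin k → Type) (_ : ∀ i, Finite (V i))
      (G : ∀ i, SimpleGraph (V i)), (∀ i, HasSumNumber (G i) 1) ∧
        HasSumNumber (unionGraph G) r} k) ∧
    (∀ k : ℕ, ∃ (V : ℕ → Type) (_ : ∀ n, Finite (V n)) (G : ∀ n, SimpleGraph (V n)),
      StrictMono (fun n => Nat.card (V n)) ∧ (∀ n v, ∃ w, (G n).Adj v w) ∧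
      (∀ n, HasSumNumber (G n) 1) ∧
      ∀ I : Finset ℕ, I.card ≤ k → HasSumNumber (unionGraph (fun i : I => G i)) I.card) ∧
    (∀ a b : ℕ, 1 ≤ a → 1 ≤ b → ∃ (V W : Type) (_ : Finite V) (_ : Finite W)
      (G₁ : SimpleGraph V) (G₂ : SimpleGraph W),
      HasSumNumber G₁ a ∧ HasSumNumber G₂ b ∧ HasSumNumber (G₁ ⊕g G₂) (a + b)) := by
  refine ⟨?_, ?_, ?_⟩
  · intro k
    constructor
    · refine ⟨fun i => VV (tt k i), fun i => inferInstance, fun i => GG (tt k i),
        fun i => GG_one _ _, ?_⟩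
      have h := union_hasSum (ι := Fin k) (K := k) (fun i => i.1) (fun i j h => h)
        (by rw [Fintype.card_fin])
      rwa [Fintype.card_fin] at h
    · rintro r ⟨V, hV, G, hG, hr⟩
      apply hr.2
      show IsSumGraph _
      have h := (sum_iffF G _).2 (lab_of_lab_one fun i => (sum_iff _ _).1 (hG i).1)
      rwa [Fintype.card_fin] at h
  · intro k
    refine ⟨fun n => VV (tt k n), fun n => inferInstance, fun n => GG (tt k n), ?_,
      fun n v => GG_nb (tt_ten _ _) v, fun n => GG_one _ _, ?_⟩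
    · refine strictMono_nat_of_lt_succ fun n => ?_
      have h1 := card_VV_le (tt k n)
      have h2 := le_card_VV (tt k (n+1)) (tt_ten _ _)
      have h3 := tt_succ k n
      have h4 := tt_ten k n
      show Nat.card (VV (tt k n)) < Nat.card (VV (tt k (n+1)))
      omega
    · intro I hI
      have h := union_hasSum (ι := I) (K := k) (fun i => i.1) (fun i j h => h)
        (by rw [Fintype.card_coe]; exact hI)
      rwa [Fintype.card_coe] at h
  · intro a b _ _
    refine ⟨_, _, ?_, ?_, unionGraph (fun i : Fin a => GG (tt (a + b) i)),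
      unionGraph (fun j : Fin b => GG (tt (a + b) (a + j))), ?_, ?_, ?_⟩
    · infer_instance
    · infer_instance
    · have h := union_hasSum (ι := Fin a) (K := a + b) (fun i => i.1) (fun i j h => h)
        (by rw [Fintype.card_fin]; omega)
      rwa [Fintype.card_fin] at h
    · have h := union_hasSum (ι := Fin b) (K := a + b) (fun i => a + i.1)
        (fun i j h => Nat.add_lt_add_left h a) (by rw [Fintype.card_fin]; omega)
      rwa [Fintype.card_fin] at h
    · have h := union_hasSum (ι := Fin (a + b)) (K := a + b) (fun i => i.1) (fun i j h => h)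
        (by rw [Fintype.card_fin])
      rw [Fintype.card_fin] at h
      exact hasSum_iso (split (a + b) a b).symm h

end Pool.Agent.Results.MP_a7f73e_co.ManyUnitGraphs
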